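import Pool.Agent.helper2.BB.Spec

/-!
# bb:C4b. The last stage
-/

set_option autoImplicit false

namespace BB

open Metric MeasureTheory Set Filter Topology Asymptotics
open Pool.Agent.helper37.PR

theorem C4b_K : (fun κ : ℝ => (κ : ℂ)) =O[𝓝 0] fun κ : ℝ => κ :=
  isBigO_of_le _ fun κ => by rw [Complex.norm_real]

theorem C4b_K2 : (fun κ : ℝ => (κ : ℂ) ^ 2) =O[𝓝 0] fun κ : ℝ => κ ^ 2 := C4b_K.pow 2

theorem C4b_pow (n m : ℕ) (h : m < n) : (fun κ : ℝ => κ ^ n) =o[𝓝 0] fun κ : ℝ => κ ^ m :=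
  isLittleO_pow_pow h

theorem C4b_cos (τ : ℝ) : (fun κ : ℝ => Complex.cos ((τ * κ : ℝ) : ℂ) -
    (1 - (κ : ℂ) ^ 2 * ((τ : ℂ) ^ 2 / 2))) =o[𝓝 0] fun κ : ℝ => κ ^ 2 := by
  have h1 : (fun κ : ℝ => Complex.cos ((τ * κ : ℝ) : ℂ) -
    (1 - (κ : ℂ) ^ 2 * ((τ : ℂ) ^ 2 / 2))) =O[𝓝 0] fun κ : ℝ => κ ^ 4 := by
    have h2 : ∀ᶠ κ : ℝ in 𝓝 0, ‖((τ * κ : ℝ) : ℂ)‖ ≤ 1 := by
      have h3 : Tendsto (fun κ : ℝ => ‖((τ * κ : ℝ) : ℂ)‖) (𝓝 0) (𝓝 ‖((τ * 0 : ℝ) : ℂ)‖) :=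
        (by fun_prop : Continuous fun κ : ℝ => ‖((τ * κ : ℝ) : ℂ)‖).tendsto 0
      rw [mul_zero, Complex.ofReal_zero, norm_zero] at h3
      exact (h3.eventually (gt_mem_nhds one_pos)).mono fun κ h => le_of_lt h
    refine IsBigO.of_bound (|τ| ^ 4 * (5 / 96)) ?_
    filter_upwards [h2] with κ hκ
    have h4 := Complex.cos_bound hκ
    have e1 : (1 - (κ : ℂ) ^ 2 * ((τ : ℂ) ^ 2 / 2)) = 1 - ((τ * κ : ℝ) : ℂ) ^ 2 / 2 := by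
      push_cast
      ring
    rw [e1]
    refine h4.trans (le_of_eq ?_)
    rw [Complex.norm_real, norm_mul, Real.norm_eq_abs, norm_pow]
    ring
  exact h1.trans_isLittleO (C4b_pow 4 2 (by norm_num))

theorem C4b_sin (τ : ℝ) : (fun κ : ℝ => Complex.sin ((τ * κ : ℝ) : ℂ) -
    (κ : ℂ) * (τ : ℂ)) =o[𝓝 0] fun κ : ℝ => κ ^ 2 := by
  have h1 : (fun κ : ℝ => Complex.sin ((τ * κ : ℝ) : ℂ) - (κ : ℂ) * (τ : ℂ))
      =O[𝓝 0] fun κ : ℝ => κ ^ 3 := by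
    have h2 : ∀ᶠ κ : ℝ in 𝓝 0, ‖((τ * κ : ℝ) : ℂ)‖ ≤ 1 := by
      have h3 : Tendsto (fun κ : ℝ => ‖((τ * κ : ℝ) : ℂ)‖) (𝓝 0) (𝓝 ‖((τ * 0 : ℝ) : ℂ)‖) :=
        (by fun_prop : Continuous fun κ : ℝ => ‖((τ * κ : ℝ) : ℂ)‖).tendsto 0
      rw [mul_zero, Complex.ofReal_zero, norm_zero] at h3
      exact (h3.eventually (gt_mem_nhds one_pos)).mono fun κ h => le_of_lt h
    refine IsBigO.of_bound (|τ| ^ 3) ?_
    filter_upwards [h2] with κ hκ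
    set x := ((τ * κ : ℝ) : ℂ) with hx
    have h4 := Complex.sin_bound hκ
    have e1 : (κ : ℂ) * (τ : ℂ) = x := by
      rw [hx]
      push_cast
      ring
    rw [e1]
    have h5 : ‖Complex.sin x - x‖ ≤ ‖x‖ ^ 5 / 100 + ‖x‖ ^ 3 / 6 := by
      have e2 : Complex.sin x - x = (Complex.sin x - (x - x ^ 3 / 6)) + (-(x ^ 3 / 6)) := by ring
      rw [e2]
      refine (norm_add_le _ _).trans (add_le_add h4 (le_of_eq ?_))
      rw [norm_neg, norm_div, norm_pow]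
      norm_num
    have h6 : ‖x‖ ^ 5 ≤ ‖x‖ ^ 3 := pow_le_pow_of_le_one (norm_nonneg _) hκ (by norm_num)
    have h7 : ‖x‖ ^ 3 = |τ| ^ 3 * ‖κ ^ 3‖ := by
      rw [hx, Complex.norm_real, norm_mul, Real.norm_eq_abs, norm_pow]
      ring
    rw [← h7]
    have h8 : 0 ≤ ‖x‖ ^ 3 := by positivity
    linarith
  exact h1.trans_isLittleO (C4b_pow 3 2 (by norm_num))

section alg
variable {f g : ℝ → ℂ}

theorem C4b_OO (hf : f =O[𝓝 0] fun _ : ℝ => (1 : ℝ)) (hg : g =o[𝓝 0] fun κ : ℝ => κ ^ 2) :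
    (fun κ => f κ * g κ) =o[𝓝 0] fun κ : ℝ => κ ^ 2 := by
  simpa using hf.mul_isLittleO hg

theorem C4b_oo (hf : f =o[𝓝 0] fun κ : ℝ => κ) (hg : g =O[𝓝 0] fun κ : ℝ => κ) :
    (fun κ => f κ * g κ) =o[𝓝 0] fun κ : ℝ => κ ^ 2 := by
  simpa [pow_two] using hf.mul_isBigO hg

theorem C4b_O1 {x : ℂ} (hf : Tendsto f (𝓝 0) (𝓝 x)) : f =O[𝓝 0] fun _ : ℝ => (1 : ℝ) :=
  hf.isBigO_one ℝ

theorem C4b_1 : (fun κ : ℝ => κ) =O[𝓝 0] fun _ : ℝ => (1 : ℝ) :=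
  (tendsto_id (α := ℝ) (x := 𝓝 0)).isBigO_one ℝ

theorem C4b_21 : (fun κ : ℝ => κ ^ 2) =O[𝓝 0] fun κ : ℝ => κ :=
  ((C4b_pow 2 1 (by norm_num)).congr_right fun κ => pow_one κ).isBigO

theorem C4b_2o : (fun κ : ℝ => κ ^ 2) =o[𝓝 0] fun κ : ℝ => κ :=
  (C4b_pow 2 1 (by norm_num)).congr_right fun κ => pow_one κ

end alg

/-- expansions of the rotated coordinates -/
theorem C4b_rot (X Y : ℝ → ℂ) (A0 α β : ℂ) (τ : ℝ)
    (h1 : (fun κ : ℝ => X κ - A0 - (κ : ℂ) ^ 2 * α) =o[𝓝 0] fun κ : ℝ => κ ^ 2)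
    (h2 : (fun κ : ℝ => Y κ - (κ : ℂ) * β) =o[𝓝 0] fun κ : ℝ => κ) :
    ((fun κ : ℝ => X κ * Complex.cos ((τ * κ : ℝ) : ℂ) + Y κ * Complex.sin ((τ * κ : ℝ) : ℂ) - A0 -
      (κ : ℂ) ^ 2 * (α + τ * β - τ ^ 2 * A0 / 2)) =o[𝓝 0] fun κ : ℝ => κ ^ 2) ∧
    ((fun κ : ℝ => Y κ * Complex.cos ((τ * κ : ℝ) : ℂ) - X κ * Complex.sin ((τ * κ : ℝ) : ℂ) -
      (κ : ℂ) * (β - τ * A0)) =o[𝓝 0] fun κ : ℝ => κ) := by
  have hc := C4b_cos τ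
  have hs := C4b_sin τ
  have hK := C4b_K
  have hK2 := C4b_K2
  have hX2 : (fun κ : ℝ => X κ - A0) =O[𝓝 0] fun κ : ℝ => κ ^ 2 := by
    have h3 : (fun κ : ℝ => (κ : ℂ) ^ 2 * α) =O[𝓝 0] fun κ : ℝ => κ ^ 2 := by
      simpa using hK2.mul (isBigO_const_const α (one_ne_zero (α := ℝ)) (𝓝 (0 : ℝ)))
    exact (h1.isBigO.add h3).congr_left fun κ => by ring
  have hX1 : X =O[𝓝 0] fun _ : ℝ => (1 : ℝ) := by
    have h3 := (hX2.trans (C4b_21.trans C4b_1)).add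
      (isBigO_const_const A0 (one_ne_zero (α := ℝ)) (𝓝 (0 : ℝ)))
    exact h3.congr_left fun κ => by ring
  have hY1 : Y =O[𝓝 0] fun κ : ℝ => κ := by
    have h3 : (fun κ : ℝ => (κ : ℂ) * β) =O[𝓝 0] fun κ : ℝ => κ := by
      simpa using hK.mul (isBigO_const_const β (one_ne_zero (α := ℝ)) (𝓝 (0 : ℝ)))
    exact (h2.isBigO.add h3).congr_left fun κ => by ring
  have hY0 : Y =O[𝓝 0] fun _ : ℝ => (1 : ℝ) := hY1.trans C4b_1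
  have hKt : (fun κ : ℝ => (κ : ℂ) * τ) =O[𝓝 0] fun κ : ℝ => κ := by
    simpa using hK.mul (isBigO_const_const (τ : ℂ) (one_ne_zero (α := ℝ)) (𝓝 (0 : ℝ)))
  have hc1 : (fun κ : ℝ => Complex.cos ((τ * κ : ℝ) : ℂ) - 1) =O[𝓝 0] fun κ : ℝ => κ ^ 2 := by
    have h3 : (fun κ : ℝ => (κ : ℂ) ^ 2 * ((τ : ℂ) ^ 2 / 2)) =O[𝓝 0] fun κ : ℝ => κ ^ 2 := by
      simpa using hK2.mul (isBigO_const_const ((τ : ℂ) ^ 2 / 2) (one_ne_zero (α := ℝ)) (𝓝 (0 : ℝ)))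
    exact (hc.isBigO.sub h3).congr_left fun κ => by ring
  have h4 : (fun κ : ℝ => (κ : ℂ) ^ 4) =o[𝓝 0] fun κ : ℝ => κ ^ 2 :=
    (hK.pow 4).trans_isLittleO (C4b_pow 4 2 (by norm_num))
  refine ⟨?_, ?_⟩
  · have t1 := C4b_OO hX1 hc
    have t2 : (fun κ : ℝ => (1 - (κ : ℂ) ^ 2 * ((τ : ℂ) ^ 2 / 2)) *
        (X κ - A0 - (κ : ℂ) ^ 2 * α)) =o[𝓝 0] fun κ : ℝ => κ ^ 2 := by
      refine C4b_OO ?_ h1
      have : Tendsto (fun κ : ℝ => (1 - (κ : ℂ) ^ 2 * ((τ : ℂ) ^ 2 / 2))) (𝓝 0)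
          (𝓝 (1 - ((0 : ℝ) : ℂ) ^ 2 * ((τ : ℂ) ^ 2 / 2))) :=
        (by fun_prop : Continuous fun κ : ℝ => (1 - (κ : ℂ) ^ 2 * ((τ : ℂ) ^ 2 / 2))).tendsto 0
      exact C4b_O1 this
    have t3 : (fun κ : ℝ => (-(α * ((τ : ℂ) ^ 2 / 2))) * (κ : ℂ) ^ 4) =o[𝓝 0]
        fun κ : ℝ => κ ^ 2 := h4.const_mul_left _
    have t4 := C4b_OO hY0 hs
    have t5 := C4b_oo h2 hKt
    refine ((((t1.add t2).add t3).add t4).add t5).congr_left fun κ => ?_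
    ring
  · have s1 : (fun κ : ℝ => Y κ * (Complex.cos ((τ * κ : ℝ) : ℂ) - 1)) =o[𝓝 0]
        fun κ : ℝ => κ := by
      have := hY0.mul (hc1)
      simp only [one_mul] at this
      exact this.trans_isLittleO C4b_2o
    have s2 : (fun κ : ℝ => (X κ - A0) * ((κ : ℂ) * τ)) =o[𝓝 0] fun κ : ℝ => κ := by
      have := (hX2.trans_isLittleO C4b_2o).mul_isBigO (hKt.trans C4b_1)
      simpa using this
    have s3 : (fun κ : ℝ => X κ * (Complex.sin ((τ * κ : ℝ) : ℂ) - (κ : ℂ) * (τ : ℂ)))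
        =o[𝓝 0] fun κ : ℝ => κ := (C4b_OO hX1 hs).trans C4b_2o
    refine (((h2.add s1).sub s2).sub s3).congr_left fun κ => ?_
    ring

theorem C4b_Kd (A0 : ℂ) (h : 1 - A0 ≠ 0) :
    HasDerivAt Kb ((1 + A0) / (1 - A0) ^ 3) A0 := by
  have h1 : HasDerivAt (fun w : ℂ => (1 - w) ^ 2) (2 * (1 - A0) * (-1)) A0 := by
    have h2 : HasDerivAt (fun w : ℂ => 1 - w) (-1) A0 := (hasDerivAt_id A0).const_sub 1
    have h3 := h2.fun_pow 2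
    simpa using h3
  have h2 := (hasDerivAt_id A0).div h1 (pow_ne_zero 2 h)
  have e : (1 * (1 - A0) ^ 2 - id A0 * (2 * (1 - A0) * (-1))) / ((1 - A0) ^ 2) ^ 2 =
      (1 + A0) / (1 - A0) ^ 3 := by
    simp only [id]
    field_simp
    ring
  rw [← e]
  exact h2

theorem C4b (hA1 : A1_stmt) (hA4 : A4_stmt) : C4b_stmt := by
  intro P A0 a y τ hA0 hn hJ
  obtain ⟨-, hW, hW2, -, -, -, -, -, hm, hp⟩ := hA1 1 A0 one_pos le_rfl hn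
  have hW0 : Rf A0 ≠ 0 := by
    intro h
    rw [h] at hW
    simp at hW
  obtain ⟨h1, h2⟩ := hJ
  set α := A0 * a / Rf A0 ^ 2 with hα
  set β := A0 * y / Rf A0 with hβ
  obtain ⟨hw, hb⟩ := C4b_rot (fun κ => (P κ).1) (fun κ => (P κ).2) A0 α β τ h1 h2
  set w : ℝ → ℂ := fun κ => (P κ).1 * Complex.cos ((τ * κ : ℝ) : ℂ) +
    (P κ).2 * Complex.sin ((τ * κ : ℝ) : ℂ) with hwdef
  set b : ℝ → ℂ := fun κ => (P κ).2 * Complex.cos ((τ * κ : ℝ) : ℂ) -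
    (P κ).1 * Complex.sin ((τ * κ : ℝ) : ℂ) with hbdef
  set ω := α + τ * β - τ ^ 2 * A0 / 2 with hω
  set β' := β - τ * A0 with hβ'
  have hK := C4b_K
  have hK2 := C4b_K2
  have hw1 : (fun κ : ℝ => w κ - A0) =O[𝓝 0] fun κ : ℝ => κ ^ 2 := by
    have h3 : (fun κ : ℝ => (κ : ℂ) ^ 2 * ω) =O[𝓝 0] fun κ : ℝ => κ ^ 2 := by
      simpa using hK2.mul (isBigO_const_const ω (one_ne_zero (α := ℝ)) (𝓝 (0 : ℝ)))
    exact (hw.isBigO.add h3).congr_left fun κ => by ring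
  have hwt : Tendsto w (𝓝 0) (𝓝 A0) := by
    have h3 : Tendsto (fun κ : ℝ => w κ - A0) (𝓝 0) (𝓝 0) := by
      refine hw1.trans_tendsto ?_
      have : Tendsto (fun κ : ℝ => κ ^ 2) (𝓝 0) (𝓝 ((0 : ℝ) ^ 2)) := (continuous_pow 2).tendsto 0
      simpa using this
    have h4 := h3.add_const A0
    simpa using h4
  -- the Koebe function
  set K' := (1 + A0) / (1 - A0) ^ 3 with hK'
  have hKd := C4b_Kd A0 hm
  have hKb : (fun κ : ℝ => Kb (w κ) - Kb A0 - (κ : ℂ) ^ 2 * (K' * ω)) =o[𝓝 0]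
      fun κ : ℝ => κ ^ 2 := by
    have h3 : (fun x => Kb x - Kb A0 - (x - A0) • K') =o[𝓝 A0] fun x => x - A0 :=
      hKd.isLittleO
    have h4 := (h3.comp_tendsto hwt).trans_isBigO hw1
    have h5 : (fun κ : ℝ => K' * (w κ - A0 - (κ : ℂ) ^ 2 * ω)) =o[𝓝 0] fun κ : ℝ => κ ^ 2 :=
      hw.const_mul_left _
    refine (h4.add h5).congr_left fun κ => ?_
    simp only [Function.comp, smul_eq_mul]
    ring
  have hKb1 : (fun κ : ℝ => Kb (w κ)) =O[𝓝 0] fun _ : ℝ => (1 : ℝ) :=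
    C4b_O1 (hKd.continuousAt.tendsto.comp hwt)
  have hKb2 : (fun κ : ℝ => Kb (w κ) - Kb A0) =O[𝓝 0] fun κ : ℝ => κ ^ 2 := by
    have h3 : (fun κ : ℝ => (κ : ℂ) ^ 2 * (K' * ω)) =O[𝓝 0] fun κ : ℝ => κ ^ 2 := by
      simpa using hK2.mul (isBigO_const_const (K' * ω) (one_ne_zero (α := ℝ)) (𝓝 (0 : ℝ)))
    exact (hKb.isBigO.add h3).congr_left fun κ => by ring
  -- the other factor
  set M : ℂ → ℂ := fun x => ((1 - x) ^ 2)⁻¹ * Rf x with hM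
  have hMc : ContinuousAt M A0 := by
    have h3 : ContinuousAt Rf A0 := ((hA4 1 one_pos le_rfl).1 A0 (mem_ball_zero_iff.2 hn)).continuousAt
    have h4 : ContinuousAt (fun x : ℂ => ((1 - x) ^ 2)⁻¹) A0 :=
      ContinuousAt.inv₀ (by fun_prop) (pow_ne_zero 2 hm)
    exact h4.mul h3
  have hMo : (fun κ : ℝ => M (w κ) - M A0) =o[𝓝 0] fun _ : ℝ => (1 : ℝ) := by
    rw [isLittleO_one_iff]
    have h3 := (hMc.tendsto.comp hwt).sub_const (M A0)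
    simpa using h3
  have hM1 : (fun κ : ℝ => M (w κ)) =O[𝓝 0] fun _ : ℝ => (1 : ℝ) :=
    C4b_O1 (hMc.tendsto.comp hwt)
  have hs := C4b_sin τ
  have hb1 : b =O[𝓝 0] fun κ : ℝ => κ := by
    have h3 : (fun κ : ℝ => (κ : ℂ) * β') =O[𝓝 0] fun κ : ℝ => κ := by
      simpa using hK.mul (isBigO_const_const β' (one_ne_zero (α := ℝ)) (𝓝 (0 : ℝ)))
    exact (hb.isBigO.add h3).congr_left fun κ => by ring
  have hKt : (fun κ : ℝ => (κ : ℂ) * τ) =O[𝓝 0] fun κ : ℝ => κ := by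
    simpa using hK.mul (isBigO_const_const (τ : ℂ) (one_ne_zero (α := ℝ)) (𝓝 (0 : ℝ)))
  have hbs : (fun κ : ℝ => b κ * Complex.sin ((τ * κ : ℝ) : ℂ) - (κ : ℂ) ^ 2 * (τ * β'))
      =o[𝓝 0] fun κ : ℝ => κ ^ 2 := by
    have t1 := C4b_OO (hb1.trans C4b_1) hs
    have t2 := C4b_oo hb hKt
    refine (t1.add t2).congr_left fun κ => ?_
    ring
  have hbs2 : (fun κ : ℝ => b κ * Complex.sin ((τ * κ : ℝ) : ℂ)) =O[𝓝 0] fun κ : ℝ => κ ^ 2 := by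
    have h3 : (fun κ : ℝ => (κ : ℂ) ^ 2 * (τ * β')) =O[𝓝 0] fun κ : ℝ => κ ^ 2 := by
      simpa using hK2.mul (isBigO_const_const (τ * β') (one_ne_zero (α := ℝ)) (𝓝 (0 : ℝ)))
    exact (hbs.isBigO.add h3).congr_left fun κ => by ring
  have hMb : (fun κ : ℝ => M (w κ) * (b κ * Complex.sin ((τ * κ : ℝ) : ℂ)) -
      (κ : ℂ) ^ 2 * (M A0 * (τ * β'))) =o[𝓝 0] fun κ : ℝ => κ ^ 2 := by
    have t1 : (fun κ : ℝ => (M (w κ) - M A0) * (b κ * Complex.sin ((τ * κ : ℝ) : ℂ))) =o[𝓝 0]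
        fun κ : ℝ => κ ^ 2 := by
      have := hMo.mul_isBigO hbs2
      simpa using this
    have t2 : (fun κ : ℝ => M A0 * (b κ * Complex.sin ((τ * κ : ℝ) : ℂ) -
        (κ : ℂ) ^ 2 * (τ * β'))) =o[𝓝 0] fun κ : ℝ => κ ^ 2 := hbs.const_mul_left _
    refine (t1.add t2).congr_left fun κ => ?_
    ring
  -- conclusion
  have hc := C4b_cos τ
  have t1 := C4b_OO hKb1 hc
  have t2 : (fun κ : ℝ => (Kb (w κ) - Kb A0) * ((κ : ℂ) ^ 2 * ((τ : ℂ) ^ 2 / 2))) =o[𝓝 0]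
      fun κ : ℝ => κ ^ 2 := by
    have h3 : (fun κ : ℝ => (κ : ℂ) ^ 2 * ((τ : ℂ) ^ 2 / 2)) =O[𝓝 0] fun κ : ℝ => κ := by
      have := hK2.mul (isBigO_const_const ((τ : ℂ) ^ 2 / 2) (one_ne_zero (α := ℝ)) (𝓝 (0 : ℝ)))
      simp only [mul_one] at this
      exact this.trans C4b_21
    exact C4b_oo (hKb2.trans_isLittleO C4b_2o) h3
  refine (((hKb.add t1).sub t2).sub hMb).congr_left fun κ => ?_
  have e1 : fin ((τ * κ : ℝ) : ℂ) (P κ) = Kb (w κ) * Complex.cos ((τ * κ : ℝ) : ℂ) -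
      M (w κ) * (b κ * Complex.sin ((τ * κ : ℝ) : ℂ)) := by
    simp only [fin, Kb, hM, hwdef, hbdef]
    ring
  have e2 : K' * ω - Kb A0 * ((τ : ℂ) ^ 2 / 2) - M A0 * (τ * β') = Kb A0 *
    (a + τ * Rf A0 * y - τ ^ 2 * Rf A0 ^ 2 / 2 - τ * (y - τ * Rf A0) - τ ^ 2 / 2) := by
    have f1 : K' * A0 = Kb A0 * Rf A0 ^ 2 := by
      rw [hW2, hK']
      unfold Kb Sg
      field_simp
    have f2 : K' * α = Kb A0 * a := by
      rw [hα]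
      field_simp
      linear_combination a * f1
    have f3 : K' * β = Kb A0 * (Rf A0 * y) := by
      rw [hβ]
      field_simp
      linear_combination y * f1
    have f4 : M A0 * β' = Kb A0 * (y - τ * Rf A0) := by
      rw [hβ', hβ]
      simp only [hM]
      unfold Kb
      field_simp
    rw [hω]
    linear_combination f2 + τ * f3 - (τ : ℂ) ^ 2 / 2 * f1 - τ * f4
  rw [e1, ← e2]
  ring

end BB
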